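import Mathlib
import Pool.Agent.Helper617.RM.Defs
import Pool.Agent.H362Z.EM.D

/-!
An `ω`-model of `RCA₀` and of the Erdős–Moser theorem with a colouring for which every infinite
set of the model realizes every permutation pattern, in particular `1302`.
-/

set_option autoImplicit false

namespace Pool.Agent.Results.MP_507498_lc.NotImplied

open Pool.Agent.Helper617.RM

/-- The `ω`-structure with the standard natural numbers whose set variables range over `I`. -/
def omegaModel (I : Set (Set ℕ)) : L2Structure.{0} :=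
  ⟨ℕ, 0, 1, fun a b => a + b, fun a b => a * b, fun a b => a < b, I⟩

/-- The colouring `f` of the pairs `x < y` belongs to `I`: the set of codes of the pairs of
colour `1` is in `I`. -/
def Coded (I : Set (Set ℕ)) (f : ℕ → ℕ → Fin 2) : Prop :=
  {n | ∃ x y, x < y ∧ n = Nat.pair x y ∧ f x y = 1} ∈ I

/-- `H` `f`-realizes the pattern `p` of size `l`. -/
def Realizes (f : ℕ → ℕ → Fin 2) {l : ℕ} (p : Fin l → Fin l → Fin 2) (H : Set ℕ) : Prop :=
  ∃ x : Fin l → ℕ, StrictMono x ∧ (∀ i, x i ∈ H) ∧ ∀ i j, i < j → f (x i) (x j) = p i j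

/-- The pattern of a permutation `π`: the pair `i < j` has colour `0` if `π i < π j`, and colour
`1` otherwise. -/
def permPattern {l : ℕ} (π : Fin l → Fin l) (i j : Fin l) : Fin 2 := if π i < π j then 0 else 1

/-- `RT²₂(p)` holds in `I`: every colouring in `I` has an infinite set in `I` avoiding `p`. -/
def RT22 {l : ℕ} (p : Fin l → Fin l → Fin 2) (I : Set (Set ℕ)) : Prop :=
  ∀ f, Coded I f → ∃ H ∈ I, H.Infinite ∧ ¬ Realizes f p H

/-- The tournament of `f`: for `x < y`, `x → y` if `f x y = 1` and `y → x` otherwise. -/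
def Beats (f : ℕ → ℕ → Fin 2) (x y : ℕ) : Prop := (x < y ∧ f x y = 1) ∨ (y < x ∧ f y x ≠ 1)

/-- `EM` holds in `I`: every colouring in `I` has an infinite set in `I` on which its tournament
is transitive. -/
def EM (I : Set (Set ℕ)) : Prop :=
  ∀ f, Coded I f → ∃ H ∈ I, H.Infinite ∧
    ∀ x ∈ H, ∀ y ∈ H, ∀ z ∈ H, Beats f x y → Beats f y z → Beats f x z

open Pool.Agent.H362Z.PRT Pool.Agent.H362Z.EM in
/-- There is an `ω`-model of `RCA₀ + EM` in which `RT²₂(1302)` fails; moreover, for one colouring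
in the model, every infinite set of the model realizes the pattern of every permutation. -/
theorem result : ∃ I : Set (Set ℕ), IsModelRCA0 (omegaModel I) ∧ EM I ∧
    ¬ RT22 (permPattern ![1, 3, 0, 2]) I ∧
    ∃ f, Coded I f ∧ ∀ H ∈ I, H.Infinite → ∀ (l : ℕ) (π : Fin l → Fin l), Function.Bijective π →
      Realizes f (permPattern π) H := by
  classical
  obtain ⟨N, g, hg, h1, h2⟩ := exists_model
  have key : ∃ f, Coded (sets N) f ∧ ∀ H ∈ sets N, H.Infinite →
      ∀ (l : ℕ) (π : Fin l → Fin l), Function.Bijective π → Realizes f (permPattern π) H := by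
    refine ⟨fun x y => if g (x, y) = true then 1 else 0, ?_, fun H hH hH' l π hπ => ?_⟩
    · have h3 : Dec N fun n : ℕ => n.unpair.1 < n.unpair.2 ∧ g n.unpair = true :=
        (Dec.lt (by fun_prop) (by fun_prop)).and (Dec.eq (by fun_prop) (by fun_prop))
      refine h3.of_iff fun n => ⟨fun h => ⟨_, _, h.1, (Nat.pair_unpair n).symm, if_pos h.2⟩, ?_⟩
      rintro ⟨x, y, e1, rfl, e2⟩
      rw [Nat.unpair_pair]
      exact ⟨e1, by by_contra hc; simp [hc] at e2⟩
    · obtain ⟨x, e1, e2⟩ := h2 (fun n => decide (n ∈ H)) (Dec.inM hH)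
        (fun n => by
          obtain ⟨y, e1, e2⟩ := hH'.exists_gt n
          exact ⟨y, e2.le, by simpa using e1⟩)
        (List.ofFn fun i => (π i : ℕ))
        (List.nodup_ofFn.2 (Fin.val_injective.comp hπ.1))
      simp only [List.length_ofFn] at e1 e2
      refine ⟨fun i => x i, fun i j h => (e2 i j h j.2).1, fun i => by simpa using e1 i i.2,
        fun i j h => ?_⟩
      have e3 := (e2 i j h j.2).2
      have e4 : π i ≠ π j := fun e => h.ne (hπ.1 e)
      simp only [pat, List.getD_eq_getElem?_getD, List.getElem?_ofFn, i.2, j.2, dif_pos,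
        Option.getD_some, Fin.eta, Fin.val_fin_lt] at e3
      simp only [e3, permPattern, decide_eq_true_eq]
      rcases lt_or_gt_of_ne e4 with e | e
      · rw [if_pos e, if_neg (not_lt.2 e.le)]
      · rw [if_pos e, if_neg (not_lt.2 e.le)]
  refine ⟨sets N, isModel N, fun f hf => ?_, fun h => ?_, key⟩
  · let T : ℕ × ℕ → Bool := fun x => decide (Nat.pair x.1 x.2 ∈
      {n | ∃ x y, x < y ∧ n = Nat.pair x y ∧ f x y = 1})
    have h3 : InM N T := Dec.inM (Dec.comp hf (f := fun x : ℕ × ℕ => Nat.pair x.1 x.2)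
      (by fun_prop))
    have h4 : ∀ x y, x < y → (T (x, y) = true ↔ f x y = 1) := by
      intro x y h
      simp only [T, Set.mem_ofPred_eq, Nat.pair_eq_pair, decide_eq_true_eq]
      exact ⟨fun ⟨a, b, _, ⟨e1, e2⟩, e3⟩ => e1 ▸ e2 ▸ e3, fun e => ⟨x, y, h, ⟨rfl, rfl⟩, e⟩⟩
    obtain ⟨G, e1, e2, e3⟩ := h1 T h3
    have h5 : ∀ x y z, x < y → y < z → G x = true → G y = true → G z = true →
        (f x y = 1 ↔ f y z = 1) → (f x z = 1 ↔ f x y = 1) := by
      intro x y z a1 a2 a3 a4 a5
      rw [← h4 x y a1, ← h4 y z a2, ← h4 x z (a1.trans a2), ← Bool.eq_iff_iff, ← Bool.eq_iff_iff]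
      exact e3 x y z a1 a2 a3 a4 a5
    refine ⟨{n | G n = true}, Dec.eq e1 (InM.const _), Set.infinite_of_forall_exists_gt fun n => ?_,
      fun x hx y hy z hz => ?_⟩
    · obtain ⟨y, a1, a2⟩ := e2 (n + 1)
      exact ⟨y, a2, a1⟩
    · rintro (⟨a1, a2⟩ | ⟨a1, a2⟩) (⟨a3, a4⟩ | ⟨a3, a4⟩)
      · exact Or.inl ⟨a1.trans a3, (h5 x y z a1 a3 hx hy hz (by tauto)).2 a2⟩
      · rcases lt_trichotomy x z with h | rfl | h
        · have := h5 x z y h a3 hx hz hy
          exact Or.inl ⟨h, by tauto⟩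
        · exact absurd a2 a4
        · have := h5 z x y h a1 hz hx hy
          exact Or.inr ⟨h, by tauto⟩
      · rcases lt_trichotomy x z with h | rfl | h
        · have := h5 y x z a1 h hy hx hz
          exact Or.inl ⟨h, by tauto⟩
        · exact absurd a4 a2
        · have := h5 y z x a3 h hy hz hx
          exact Or.inr ⟨h, by tauto⟩
      · have := h5 z y x a3 a1 hz hy hx
        exact Or.inr ⟨a3.trans a1, by tauto⟩
  · obtain ⟨f, e1, e2⟩ := key
    obtain ⟨H, e3, e4, e5⟩ := h f e1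
    exact e5 (e2 H e3 e4 4 _ (by decide))

end Pool.Agent.Results.MP_507498_lc.NotImplied
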